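import Pool.Agent.H75.OM.TA

/-!
# The generator fools a formula (NWG)
-/

set_option autoImplicit false

open Finset Pool.Agent.H6.NB Pool.Agent.H70.OQ Pool.Agent.H70.EH Pool.Agent.H70.EI
  Pool.Agent.H78.XQ Pool.Agent.H75.OM

namespace Pool.Agent.H13.OMN

theorem pf_NWG (h1 : T_NWH) (h2 : T_INJ) : T_NWG := by
  classical
  intro l N S d w M X _ _ e f hM hw hq hS he hf
  set E : ℝ := 2 * (er S (d + 2) w + 4 * Real.exp (-(2 ^ l * rt w (d + 2) ^ 2 / 16))) with hE
  have hE0 : 0 ≤ E := by
    have h3 : 0 ≤ er S (d + 2) w := by unfold er; positivity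
    have h4 := Real.exp_pos (-(2 ^ l * rt w (d + 2) ^ 2 / 16))
    rw [hE]
    linarith
  have key : ∀ A : Finset X,
      mn (fun y : X ⊕ (Fin l → Bool) × (Fin l → Bool) → Bool => bi (f fun x' =>
        if x' ∈ A then y (.inl x') else gen M (fun c => y (.inr c)) (e x'))) ≤
      mn (fun y : X ⊕ (Fin l → Bool) × (Fin l → Bool) → Bool => bi (f fun x' =>
        gen M (fun c => y (.inr c)) (e x'))) + A.card * E := by
    intro A
    induction A using Finset.induction_on with
    | empty => simp
    | insert x A hx ih =>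
      have h3 := h1 l N S d w M X e f A x hM hw hq hS he hf hx
      rw [← hE] at h3
      rw [Finset.card_insert_of_notMem hx]
      push_cast
      linarith
  have hA := key Finset.univ
  simp only [Finset.mem_univ, if_true] at hA
  have h3 := h2 X (X ⊕ (Fin l → Bool) × (Fin l → Bool)) Sum.inl (fun y => bi (f y))
    Sum.inl_injective
  have h4 := h2 ((Fin l → Bool) × (Fin l → Bool)) (X ⊕ (Fin l → Bool) × (Fin l → Bool)) Sum.inr
    (fun z => bi (f fun x => gen M z (e x))) Sum.inr_injective
  have h5 : ((Finset.univ : Finset X).card : ℝ) ≤ 2 ^ N := by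
    have h6 := Fintype.card_le_of_injective e he
    rw [Fintype.card_fun, Fintype.card_bool, Fintype.card_fin] at h6
    rw [Finset.card_univ]
    exact_mod_cast h6
  have h7 := mul_le_mul_of_nonneg_right h5 hE0
  calc mn (fun y => bi (f y)) = _ := h3.symm
    _ ≤ _ := hA
    _ ≤ _ := by
      rw [h4]
      linarith

end Pool.Agent.H13.OMN
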